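import Pool.Agent.W424.KI.Stm
import Pool.Agent.W808.KZ.T_DET

/-!
Task DET of project KI: landing at both boundaries implies the event of the steps.
-/

set_option autoImplicit false

namespace Pool.Agent.W563.KI
open H974 H906.Cyl
open H12S (Dir hbE segD rimE H4 Crs Nr sqE)
open Pool.Agent.H160R2.ML (nm)
open Pool.Agent.H160R2.MU (Cel csq cpos EP inSq)
open Pool.Agent.W801.OU
open Pool.Agent.W808.KZ (vp fp AdmZ OutF LandZ nrp ZCr mrg)
open Pool.Agent.W424.KI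
open Pool.Agent.H160R2.MU.TDET (nm_le sqE_inSq)
open Pool.Agent.W808.KZ.TDET (Dg_vp)

namespace Det

/-- the data -/
structure D (N L r : ℕ) (Ci Co : Cel) (R : ℕ) (F : Finset Edg) : Prop where
  z2 : S_z2
  z3 : S_z3
  ex : S_EX
  g : Geo N L r Ci Co R
  hF : F ⊆ boxE R

variable {N L r : ℕ} {Ci Co : Cel} {R : ℕ} {F : Finset Edg}

theorem D.hr4 (d : D N L r Ci Co R F) : (4 : ℤ) ≤ r := by exact_mod_cast d.g.hr

theorem D.hN16 (d : D N L r Ci Co R F) : (16 : ℤ) ≤ N := by exact_mod_cast d.g.hN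

theorem D.hL3 (d : D N L r Ci Co R F) : 3 * (N : ℤ) ≤ L := by exact_mod_cast d.g.hL

theorem D.hR4 (d : D N L r Ci Co R F) : 4 * ((L : ℤ) * r) ≤ R := by exact_mod_cast d.g.hR

theorem D.NL (d : D N L r Ci Co R F) : 3 * ((N : ℤ) * r) ≤ L * r := by
  have h1 := d.hr4
  have h2 := d.hL3
  nlinarith

theorem D.N64 (d : D N L r Ci Co R F) : 64 ≤ (N : ℤ) * r := by
  have h1 := d.hr4
  have h2 := d.hN16
  nlinarith

theorem mem_boxE {m : ℕ} {e : Edg} : e ∈ boxE m ↔ e ∈ bxz m := by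
  unfold boxE bxz
  obtain ⟨x, y, _ | _⟩ := e
  · simp only [mem_RE_false, Set.mem_ofPred_eq, nm_le, src_mk, tgt_false]
    omega
  · simp only [mem_RE_true, Set.mem_ofPred_eq, nm_le, src_mk, tgt_true]
    omega

theorem mem_FA {e : Edg} : e ∈ FA N L r Ci Co R F ↔ e ∈ bxz R ∧
    ((e ∈ EB N L r ∧ e ∈ F) ∨ (e ∉ EB N L r ∧ e ∈ ET N L r Ci Co)) := by
  classical
  unfold FA
  simp only [Finset.mem_filter, mem_boxE]

/-! ### coarse squares -/

theorem cany {r : ℕ} (hr : (4 : ℤ) ≤ r) (x : ℤ) : ∃ b : ℤ, r * b ≤ x ∧ x < r * b + r :=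
  ⟨x / r, Int.mul_ediv_self_le (by omega), by
    have := Int.lt_mul_ediv_self_add (x := x) (show (0 : ℤ) < r by omega)
    linarith⟩

theorem cone {r : ℕ} (hr : (4 : ℤ) ≤ r) {N : ℤ} (hN : 1 ≤ N) {x : ℤ} (h1 : -(N * r) ≤ x)
    (h2 : x < N * r) : ∃ b : ℤ, -N ≤ b ∧ b < N ∧ r * b ≤ x ∧ x < r * b + r := by
  obtain ⟨b, b1, b2⟩ := cany hr x
  refine ⟨b, ?_, ?_, b1, b2⟩
  · by_contra h
    have h' : b + 1 ≤ -N := by omega
    nlinarith
  · by_contra h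
    have h' : N ≤ b := by omega
    nlinarith

theorem cone' {r : ℕ} (hr : (4 : ℤ) ≤ r) {N : ℤ} (hN : 1 ≤ N) {x : ℤ} (h1 : -(N * r) ≤ x)
    (h2 : x ≤ N * r) : ∃ b : ℤ, -N ≤ b ∧ b < N ∧ r * b ≤ x ∧ x ≤ r * b + r := by
  rcases lt_or_eq_of_le h2 with h3 | h3
  · obtain ⟨b, b1, b2, b3, b4⟩ := cone hr hN h1 h3
    exact ⟨b, b1, b2, b3, b4.le⟩
  · refine ⟨N - 1, by omega, by omega, ?_, ?_⟩
    · rw [h3]; nlinarith
    · rw [h3]; nlinarith

theorem cout {r : ℕ} (hr : (4 : ℤ) ≤ r) {L : ℤ} {x : ℤ} (h : L * r ≤ x ∨ x < -(L * r)) :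
    ∃ b : ℤ, (L ≤ b ∨ b < -L) ∧ r * b ≤ x ∧ x < r * b + r := by
  obtain ⟨b, b1, b2⟩ := cany hr x
  refine ⟨b, ?_, b1, b2⟩
  rcases h with h | h
  · left
    by_contra h'
    have h' : b + 1 ≤ L := by omega
    nlinarith
  · right
    by_contra h'
    have h' : -L ≤ b := by omega
    nlinarith

theorem cout' {r : ℕ} (hr : (4 : ℤ) ≤ r) {L : ℤ} {x : ℤ} (h : L * r ≤ x ∨ x ≤ -(L * r)) :
    ∃ b : ℤ, (L ≤ b ∨ b < -L) ∧ r * b ≤ x ∧ x ≤ r * b + r := by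
  rcases h with h | h
  · obtain ⟨b, b1, b2, b3⟩ := cout hr (L := L) (x := x) (Or.inl h)
    exact ⟨b, b1, b2, b3.le⟩
  · rcases lt_or_eq_of_le h with h3 | h3
    · obtain ⟨b, b1, b2, b3⟩ := cout hr (L := L) (x := x) (Or.inr h3)
      exact ⟨b, b1, b2, b3.le⟩
    · refine ⟨-L - 1, Or.inr (by omega), ?_, ?_⟩
      · rw [h3]; nlinarith
      · rw [h3]; nlinarith

/-- the squares of the inner box -/
theorem D.inner (d : D N L r Ci Co R F) {e : Edg} (he : e ∈ bxz (N * r : ℕ)) : e ∈ EB N L r := by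
  have hr := d.hr4
  have hN : (1 : ℤ) ≤ N := by have := d.hN16; omega
  obtain ⟨h1, h2⟩ := he
  rw [nm_le] at h1 h2
  push_cast at h1 h2
  obtain ⟨x, y, _ | _⟩ := e
  · simp only [src_mk, tgt_false] at h1 h2
    obtain ⟨b1, p1, p2, p3, p4⟩ := cone' hr hN h1.1.1 h1.1.2
    obtain ⟨b2, q1, q2, q3, q4⟩ := cone hr hN h1.2.1 (by omega)
    exact ⟨(b1, b2), Or.inl ⟨p1, p2, q1, q2⟩, by
      simp only [sqE, mem_RE_false]; exact ⟨p3, p4, q3, q4⟩⟩
  · simp only [src_mk, tgt_true] at h1 h2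
    obtain ⟨b1, p1, p2, p3, p4⟩ := cone hr hN h1.1.1 (by omega)
    obtain ⟨b2, q1, q2, q3, q4⟩ := cone' hr hN h1.2.1 h1.2.2
    exact ⟨(b1, b2), Or.inl ⟨p1, p2, q1, q2⟩, by
      simp only [sqE, mem_RE_true]; exact ⟨p3, p4, q3, q4⟩⟩

theorem le_nm {v : Vtx} {m : ℤ} : m ≤ nm v ↔ (m ≤ v.1 ∨ v.1 ≤ -m) ∨ (m ≤ v.2 ∨ v.2 ≤ -m) := by
  unfold nm
  rw [le_max_iff, le_abs, le_abs]
  omega

/-- the squares of the outer region -/
theorem D.outer (d : D N L r Ci Co R F) {e : Edg} (he : e ∈ AnS (L * r : ℕ) R) : e ∈ EB N L r := by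
  have hr := d.hr4
  have h64 := d.N64
  have hNL := d.NL
  obtain ⟨⟨h1, h2⟩, -⟩ := he
  rw [le_nm] at h1 h2
  push_cast at h1 h2
  obtain ⟨x, y, _ | _⟩ := e
  · simp only [src_mk, tgt_false] at h1 h2
    by_cases hx : (L : ℤ) * r ≤ x ∨ x ≤ -(L * r)
    · obtain ⟨b1, p1, p3, p4⟩ := cout' hr hx
      obtain ⟨b2, q3, q4⟩ := cany hr y
      exact ⟨(b1, b2), Or.inr (by simp only; omega), by
        simp only [sqE, mem_RE_false]; exact ⟨p3, p4, q3, q4⟩⟩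
    · obtain ⟨b1, p3, p4⟩ := cany hr x
      obtain ⟨b2, q1, q3, q4⟩ := cout hr (L := L) (x := y) (by omega)
      exact ⟨(b1, b2), Or.inr (by simp only; omega), by
        simp only [sqE, mem_RE_false]; exact ⟨p3, p4.le, q3, q4⟩⟩
  · simp only [src_mk, tgt_true] at h1 h2
    by_cases hy : (L : ℤ) * r ≤ y ∨ y ≤ -(L * r)
    · obtain ⟨b1, p3, p4⟩ := cany hr x
      obtain ⟨b2, q1, q3, q4⟩ := cout' hr hy
      exact ⟨(b1, b2), Or.inr (by simp only; omega), by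
        simp only [sqE, mem_RE_true]; exact ⟨p3, p4, q3, q4⟩⟩
    · obtain ⟨b1, p1, p3, p4⟩ := cout hr (L := L) (x := x) (by omega)
      obtain ⟨b2, q3, q4⟩ := cany hr y
      exact ⟨(b1, b2), Or.inr (by simp only; omega), by
        simp only [sqE, mem_RE_true]; exact ⟨p3, p4, q3, q4.le⟩⟩

/-- the other squares are in the box -/
theorem D.notEB (d : D N L r Ci Co R F) {e : Edg} (he : e ∉ EB N L r) : e ∈ bxz R := by
  have hr := d.hr4
  have hR := d.hR4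
  have h64 := d.N64
  have hNL := d.NL
  obtain ⟨x, y, b⟩ := e
  obtain ⟨X, x1, x2⟩ := cany hr x
  obtain ⟨Y, y1, y2⟩ := cany hr y
  have hm : ((x, y, b) : Edg) ∈ sqE r (X, Y) := by
    cases b
    · simp only [sqE, mem_RE_false]; exact ⟨x1, x2.le, y1, y2⟩
    · simp only [sqE, mem_RE_true]; exact ⟨x1, x2, y1, y2.le⟩
  have hz : -(L : ℤ) ≤ X ∧ X < L ∧ -(L : ℤ) ≤ Y ∧ Y < L := by
    by_contra h
    exact he ⟨(X, Y), Or.inr h, hm⟩
  obtain ⟨z1, z2, z3, z4⟩ := hz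
  have p1 : -((L : ℤ) * r) ≤ r * X := by nlinarith
  have p2 : (r : ℤ) * X + r ≤ L * r := by nlinarith
  have p3 : -((L : ℤ) * r) ≤ r * Y := by nlinarith
  have p4 : (r : ℤ) * Y + r ≤ L * r := by nlinarith
  unfold bxz
  simp only [Set.mem_ofPred_eq, nm_le]
  cases b
  · simp only [src_mk, tgt_false]; omega
  · simp only [src_mk, tgt_true]; omega

/-! ### connections -/

/-- connections in the squares of the inner box and of the outer region -/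
theorem D.lift (d : D N L r Ci Co R F) {B : Set Edg} (hB : ∀ e ∈ B, e ∈ EB N L r ∧ e ∈ bxz R)
    {x y : ℤ × ℤ} (h : RZ {0} B (↑F : Set Edg) x y) :
    RZ {0} (bxz R) (↑(FA N L r Ci Co R F) : Set Edg) x y := by
  refine Relation.EqvGen.mono ?_ _ _ h
  rintro a b ⟨e, he, hz, h⟩
  obtain ⟨h1, h2⟩ := hB e he
  refine ⟨e, h2, hz, ?_⟩
  have h3 : e ∈ (↑(FA N L r Ci Co R F) : Set Edg) ↔ e ∈ (↑F : Set Edg) := by
    rw [Finset.mem_coe, Finset.mem_coe, mem_FA]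
    constructor
    · rintro ⟨-, ⟨-, h⟩ | ⟨h, -⟩⟩
      · exact h
      · exact absurd h1 h
    · intro h
      exact ⟨h2, Or.inl ⟨h1, h⟩⟩
  rw [h3]
  exact h

theorem D.box (d : D N L r Ci Co R F) {x y : ℤ × ℤ}
    (h : RZ {0} (bxz (N * r : ℕ)) (↑F : Set Edg) x y) :
    RZ {0} (bxz R) (↑(FA N L r Ci Co R F) : Set Edg) x y := by
  have hR := d.hR4
  have h64 := d.N64
  have hNL := d.NL
  refine d.lift (fun e he => ⟨d.inner he, ?_⟩) h
  obtain ⟨h1, h2⟩ := he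
  push_cast at h1 h2
  exact ⟨by omega, by omega⟩

theorem D.ann (d : D N L r Ci Co R F) {x y : ℤ × ℤ}
    (h : RZ {0} (AnS (L * r : ℕ) R) (↑F : Set Edg) x y) :
    RZ {0} (bxz R) (↑(FA N L r Ci Co R F) : Set Edg) x y :=
  d.lift (fun _ he => ⟨d.outer he, he.2⟩) h

/-- connections of the closed region -/
theorem D.clo (d : D N L r Ci Co R F) {x y : ℤ × ℤ}
    (h : RZ {0} (Clo N L r Ci Co) ∅ x y) :
    RZ {0} (bxz R) (↑(FA N L r Ci Co R F) : Set Edg) x y := by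
  refine Relation.EqvGen.mono ?_ _ _ h
  rintro a b ⟨e, he, hz, h⟩
  refine ⟨e, d.notEB he.1, hz, Or.inr ⟨?_, ?_⟩⟩
  · rw [Finset.mem_coe, mem_FA]
    rintro ⟨-, ⟨h, -⟩ | ⟨-, h⟩⟩
    · exact he.1 h
    · exact he.2 h
  · rcases h with ⟨h, -⟩ | ⟨-, h⟩
    · exact absurd h (Set.notMem_empty _)
    · exact h

/-- a vertex of the tube on the zipper column is on the positive side -/
theorem D.tube_far (d : D N L r Ci Co R F) {z : ℤ × ℤ} {v : Vtx} (hz : z ∈ TubI N L Ci Co)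
    (hv : inSq r z v) (hc : v.1 + v.2 = 0) : 2 ≤ v.1 - v.2 := by
  have hx := ((d.z3 N L Ci Co d.g.hN d.g.hL d.g.hi d.g.ho _ rfl).2.2 z hz).2.2
  obtain ⟨a1, a2, a3, a4⟩ := hv
  have hr := d.hr4
  have hN := d.hN16
  rcases hx with hx | hx | hx
  · have : (r : ℤ) * 16 ≤ r * z.1 - r * z.2 := by nlinarith
    omega
  · have : (r : ℤ) * z.1 + r * z.2 ≤ -(6 * r) := by nlinarith
    omega
  · have : (5 : ℤ) * r ≤ (r : ℤ) * z.1 + r * z.2 := by nlinarith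
    omega

/-- connections of the tube -/
theorem D.tube (d : D N L r Ci Co R F) {u v : Vtx} (h : Reach (ET N L r Ci Co \ EB N L r) u v) :
    RZ {0} (bxz R) (↑(FA N L r Ci Co R F) : Set Edg) (vp u) (vp v) := by
  induction h with
  | refl => exact Relation.EqvGen.refl _
  | tail _ hs ih =>
    refine Relation.EqvGen.trans _ _ _ ih ?_
    obtain ⟨e, ⟨⟨z, hz, hez⟩, heB⟩, he⟩ := hs
    obtain ⟨q1, q2⟩ := sqE_inSq hez
    have k1 : ¬ (dco e < 0 ∧ e.1 + e.2.1 ∈ ({0} : Set ℤ)) := by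
      rintro ⟨h1, h2⟩
      have := d.tube_far hz q1 (Set.mem_singleton_iff.1 h2)
      obtain ⟨x, y, _ | _⟩ := e
      · simp only [src_mk, dco, Bool.false_eq_true, if_false] at h1 this; omega
      · simp only [src_mk, dco, if_true] at h1 this; omega
    have k2 : ¬ (dco e < 0 ∧ e.1 + e.2.1 + 1 ∈ ({0} : Set ℤ)) := by
      rintro ⟨h1, h2⟩
      have hc : (tgt e).1 + (tgt e).2 = 0 := by
        have h3 : (tgt e).1 + (tgt e).2 = e.1 + e.2.1 + 1 := by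
          obtain ⟨x, y, _ | _⟩ := e
          · simp only [tgt_false]; ring
          · simp only [tgt_true]; ring
        rw [h3]; exact Set.mem_singleton_iff.1 h2
      have := d.tube_far hz q2 hc
      obtain ⟨x, y, _ | _⟩ := e
      · simp only [tgt_false, dco, Bool.false_eq_true, if_false] at h1 this; omega
      · simp only [tgt_true, dco, if_true] at h1 this; omega
    have hl : LZ {0} (bxz R) (↑(FA N L r Ci Co R F) : Set Edg) (vp (src e)) (vp (tgt e)) := by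
      refine ⟨e, d.notEB heB, k2, Or.inl ⟨?_, Dg_vp k1 k2⟩⟩
      rw [Finset.mem_coe, mem_FA]
      exact ⟨d.notEB heB, Or.inr ⟨heB, z, hz, hez⟩⟩
    rcases he with ⟨h1, h2⟩ | ⟨h1, h2⟩
    · rw [← h1, ← h2]; exact Relation.EqvGen.rel _ _ hl
    · rw [← h1, ← h2]; exact Relation.EqvGen.symm _ _ (Relation.EqvGen.rel _ _ hl)

end Det

open Det

theorem t_DET : S_TRIB → S_ONB → S_z1 → S_z2 → S_z3 → S_EX → S_DET := by
  intro _ gO _ g2 g3 gE N L r Ci Co R g F hF hL hO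
  have d : D N L r Ci Co R F := { z2 := g2, z3 := g3, ex := gE, g := g, hF := hF }
  obtain ⟨i, j, k, hi, hj, hk, hij, hik, hjk, ⟨v, hv1, -, hv3⟩, ⟨p, hp1, hp2⟩, ⟨p', hp1', hp2'⟩⟩ := hL
  obtain ⟨⟨w, hw1, -, yw, hw2, hw3⟩, ⟨q, hq1, yq, hq2, hq3⟩, ⟨q', hq1', yq', hq2', hq3'⟩⟩ := hO
  obtain ⟨a, b, ex1, ex2, ex3, ex4⟩ := gE N L r Ci Co R g
  obtain ⟨t1, t2, t3⟩ := g2 N L Ci Co g.hN g.hL g.hi g.ho
  set GA : Set Edg := (↑(FA N L r Ci Co R F) : Set Edg) with hGA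
  have symm : ∀ {x y : ℤ × ℤ}, RZ {0} (bxz R) GA x y → RZ {0} (bxz R) GA y x :=
    fun h => Relation.EqvGen.symm _ _ h
  have trans : ∀ {x y z : ℤ × ℤ}, RZ {0} (bxz R) GA x y → RZ {0} (bxz R) GA y z →
      RZ {0} (bxz R) GA x z := fun h h' => Relation.EqvGen.trans _ _ _ h h'
  -- the sector `i`
  have hiv : RZ {0} (bxz R) GA (scz 0 0 i) (vp v) := d.box hv3
  have hvw : RZ {0} (bxz R) GA (vp v) (vp w) :=
    d.tube (t1 r _ _ v w (by have := g.hr; omega) t2 t3 hv1 hw1)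
  have hI : ∃ x : ℤ × ℤ, RZ {0} (bxz R) GA (scz 0 0 i) x ∧ Tou R x :=
    ⟨yw, trans (trans hiv hvw) (d.ann hw2), hw3⟩
  -- the sides
  have hA : ∃ x : ℤ × ℤ, RZ {0} (bxz R) GA a x ∧ Tou R x :=
    ⟨yq, trans (symm (d.clo (ex3 q hq1))) (d.ann hq2), hq3⟩
  have hB : ∃ x : ℤ × ℤ, RZ {0} (bxz R) GA b x ∧ Tou R x :=
    ⟨yq', trans (symm (d.clo (ex4 q' hq1'))) (d.ann hq2'), hq3'⟩
  have hXE : ∀ x, XE N L r Ci Co x → RZ {0} (bxz R) GA x a ∨ RZ {0} (bxz R) GA x b := by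
    intro x hx
    rcases ex1 x hx with h | h
    · exact Or.inl (d.clo h)
    · exact Or.inr (d.clo h)
  -- the other sectors
  have hjab : RZ {0} (bxz R) GA (scz 0 0 j) a ∨ RZ {0} (bxz R) GA (scz 0 0 j) b := by
    rcases hXE _ (ex2 p hp1) with h | h
    · exact Or.inl (trans (d.box hp2) h)
    · exact Or.inr (trans (d.box hp2) h)
  have hkab : RZ {0} (bxz R) GA (scz 0 0 k) a ∨ RZ {0} (bxz R) GA (scz 0 0 k) b := by
    rcases hXE _ (ex2 p' hp1') with h | h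
    · exact Or.inl (trans (d.box hp2') h)
    · exact Or.inr (trans (d.box hp2') h)
  have out : ∀ x : ℤ × ℤ, (RZ {0} (bxz R) GA x a ∨ RZ {0} (bxz R) GA x b) →
      ∃ y : ℤ × ℤ, RZ {0} (bxz R) GA x y ∧ Tou R y := by
    rintro x (h | h)
    · obtain ⟨y, h1, h2⟩ := hA
      exact ⟨y, trans h h1, h2⟩
    · obtain ⟨y, h1, h2⟩ := hB
      exact ⟨y, trans h h1, h2⟩
  have hR1 : 1 ≤ R := by
    have h1 := d.hR4
    have h2 := d.N64
    have h3 := d.NL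
    omega
  have hS : SE3 R GA := by
    refine (gO R GA hR1).1 ?_
    intro c hc
    have hc3 : c = i ∨ c = j ∨ c = k := by omega
    rcases hc3 with rfl | rfl | rfl
    · exact hI
    · exact out _ hjab
    · exact out _ hkab
  refine ⟨hS, i, hi, ?_⟩
  intro x hx hix
  have n1 := hS.1 i j hi hj hij
  have n2 := hS.1 i k hi hk hik
  have n3 := hS.1 j k hj hk hjk
  rcases hXE x hx with h | h
  · rcases hjab with h1 | h1
    · exact n1 (trans (trans hix h) (symm h1))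
    · rcases hkab with h2 | h2
      · exact n2 (trans (trans hix h) (symm h2))
      · exact n3 (trans h1 (symm h2))
  · rcases hjab with h1 | h1
    · rcases hkab with h2 | h2
      · exact n3 (trans h1 (symm h2))
      · exact n2 (trans (trans hix h) (symm h2))
    · exact n1 (trans (trans hix h) (symm h1))

end Pool.Agent.W563.KI
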